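import Pool.Agent.L5helper9.NkDefs
import Pool.Agent.L5helper9.Nf2

/-!
# Most residues have small representatives, over the integers of a number field
-/

set_option autoImplicit false

namespace Pool.Agent.L5helper37.NfLow

open Polynomial Module NumberField Finset
open scoped Pointwise
open Pool.Agent.L5helper9.Nk

section aux

variable {K : Type} [Field K] [NumberField K]

/-- reduction modulo the prime of degree one -/
noncomputable def psi1 {p : ℕ} (ψ : 𝓞 K →+* ZMod (p ^ 2)) : 𝓞 K →+* ZMod p :=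
  (ZMod.castHom (dvd_pow_self p two_ne_zero) (ZMod p)).comp ψ

omit [NumberField K] in
lemma ev1_eq {p : ℕ} (ψ : 𝓞 K →+* ZMod (p ^ 2)) (r : ℤ) (A : (𝓞 K)[X]) :
    ev1 ψ r A = A.eval₂ (psi1 ψ) (r : ZMod p) := by
  unfold ev1 ev psi1
  rw [Polynomial.hom_eval₂, map_intCast]

lemma norm_le_house (a : 𝓞 K) :
    ((Algebra.norm ℤ a).natAbs : ℝ) ≤ house (a : K) ^ finrank ℚ K := by
  obtain ⟨σ⟩ : Nonempty (K →+* ℂ) := inferInstance
  have h1 := norm_norm_le_norm_mul_house_pow (a : K) σ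
  have h2 := norm_embedding_le_house (a : K) σ
  have hd : 0 < finrank ℚ K := finrank_pos
  have h3 : house (a : K) ^ finrank ℚ K =
      house (a : K) * house (a : K) ^ (finrank ℚ K - 1) := by
    rw [← pow_succ']
    congr 1
    omega
  rw [h3]
  have h4 : ‖Algebra.norm ℚ (a : K)‖ = ((Algebra.norm ℤ a).natAbs : ℝ) := by
    rw [← Algebra.coe_norm_int]
    rw [Nat.cast_natAbs]
    rw [← Rat.norm_cast_real]
    rw [Real.norm_eq_abs]
    push_cast
    rfl
  rw [← h4]
  refine h1.trans ?_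
  exact mul_le_mul_of_nonneg_right h2 (pow_nonneg (house_nonneg _) _)

lemma dvd_norm {p : ℕ} (ψ1 : 𝓞 K →+* ZMod p) (a : 𝓞 K) (h : ψ1 a = 0) :
    p ∣ (Algebra.norm ℤ a).natAbs := by
  have h1 := Ideal.absNorm_mem (Ideal.span {a})
  rw [Ideal.mem_span_singleton] at h1
  obtain ⟨b, hb⟩ := h1
  have h2 : ψ1 ((Ideal.absNorm (Ideal.span {a}) : ℕ) : 𝓞 K) = 0 := by
    rw [hb, map_mul, h, zero_mul]
  rw [map_natCast, ZMod.natCast_eq_zero_iff, Ideal.absNorm_span_singleton] at h2
  exact h2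

lemma psi_ne_zero {p : ℕ} (ψ1 : 𝓞 K →+* ZMod p) (a : 𝓞 K) (ha : a ≠ 0)
    (h : house (a : K) ^ finrank ℚ K < p) : ψ1 a ≠ 0 := by
  intro h0
  have h1 := dvd_norm ψ1 a h0
  have h2 : (Algebra.norm ℤ a).natAbs ≠ 0 := by
    rw [Int.natAbs_ne_zero]
    exact Algebra.norm_ne_zero_iff.2 ha
  have h3 := Nat.le_of_dvd (Nat.pos_of_ne_zero h2) h1
  have h4 := norm_le_house a
  have h5 : (p : ℝ) ≤ ((Algebra.norm ℤ a).natAbs : ℝ) := by exact_mod_cast h3
  linarith

lemma SmK_add {t d : ℕ} {M N : ℝ} {A B : (𝓞 K)[X]} (h1 : SmK t d M A) (h2 : SmK t d N B) :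
    SmK t d (M + N) (A + B) := by
  refine ⟨(natDegree_add_le _ _).trans (max_le h1.1 h2.1), fun i => ?_⟩
  have h3 := h1.2 i
  have h4 := h2.2 i
  have h5 : house ((A + B).coeff i : K) ≤ house (A.coeff i : K) + house (B.coeff i : K) := by
    rw [coeff_add]
    have := house_add_le (A.coeff i : K) (B.coeff i : K)
    simpa using this
  have h6 : (0 : ℝ) ≤ (t : ℝ) ^ (2 * i) := by positivity
  nlinarith [mul_le_mul_of_nonneg_right h5 h6]

variable (K) in
/-- the index of the integral basis -/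
abbrev Ix : Type := Free.ChooseBasisIndex ℤ (𝓞 K)

variable (K) in
/-- integral coordinates -/
noncomputable def ee : (Ix K → ℤ) ≃ₗ[ℤ] 𝓞 K := (RingOfIntegers.basis K).equivFun.symm

variable (K) in
noncomputable def kap : ℝ := 1 + ∑ j : Ix K, house (RingOfIntegers.basis K j : K)

lemma one_le_kap : 1 ≤ kap K := by
  unfold kap
  have : 0 ≤ ∑ j : Ix K, house (RingOfIntegers.basis K j : K) :=
    Finset.sum_nonneg fun j _ => house_nonneg _
  linarith

lemma house_ee (c : Ix K → ℤ) (B : ℝ) (hB : 0 ≤ B) (h : ∀ j, |(c j : ℝ)| ≤ B) :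
    house (ee K c : K) ≤ kap K * B := by
  have h1 : (ee K c : K) = ∑ j : Ix K, ((c j : ℤ) : K) * (RingOfIntegers.basis K j : K) := by
    unfold ee
    rw [Basis.equivFun_symm_apply]
    push_cast
    simp [zsmul_eq_mul]
  rw [h1]
  have h2 : ∀ j : Ix K, house (((c j : ℤ) : K) * (RingOfIntegers.basis K j : K)) ≤
      B * house (RingOfIntegers.basis K j : K) := by
    intro j
    refine (house_mul_le _ _).trans ?_
    have h3 := house_intCast (K := K) (c j)
    rw [h3]
    exact mul_le_mul_of_nonneg_right (by simpa using h j) (house_nonneg _)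
  calc _ ≤ ∑ j : Ix K, house (((c j : ℤ) : K) * (RingOfIntegers.basis K j : K)) :=
        house_sum_le_sum_house _ _
    _ ≤ ∑ j : Ix K, B * house (RingOfIntegers.basis K j : K) := Finset.sum_le_sum fun j _ => h2 j
    _ = B * ∑ j : Ix K, house (RingOfIntegers.basis K j : K) := by rw [Finset.mul_sum]
    _ ≤ kap K * B := by
        unfold kap
        nlinarith

variable (K) in
lemma card_Ix : Fintype.card (Ix K) = finrank ℚ K := by
  rw [← RingOfIntegers.rank K, finrank_eq_card_chooseBasisIndex]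

open Classical in
/-- the polynomial with the coordinates `c` -/
noncomputable def PP {m : ℕ} (c : Fin (m + 1) → Ix K → ℤ) : (𝓞 K)[X] :=
  ofFn (m + 1) (fun i => ee K (c i))

lemma PP_coeff {m : ℕ} (c : Fin (m + 1) → Ix K → ℤ) (i : ℕ) (hi : i < m + 1) :
    (PP c).coeff i = ee K (c ⟨i, hi⟩) := by
  classical
  unfold PP
  rw [ofFn_coeff_eq_val_of_lt _ hi]

lemma PP_coeff_ge {m : ℕ} (c : Fin (m + 1) → Ix K → ℤ) (i : ℕ) (hi : m + 1 ≤ i) :
    (PP c).coeff i = 0 := by
  classical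
  unfold PP
  rw [ofFn_coeff_eq_zero_of_ge _ hi]

lemma PP_natDegree {m : ℕ} (c : Fin (m + 1) → Ix K → ℤ) : (PP c).natDegree ≤ m := by
  classical
  unfold PP
  exact Nat.lt_succ_iff.1 (ofFn_natDegree_lt (n := m + 1) (by omega) (fun i => ee K (c i)))

lemma PP_sub {m : ℕ} (a b : Fin (m + 1) → Ix K → ℤ) : PP (a - b) = PP a - PP b := by
  unfold PP
  rw [← map_sub]
  congr 1
  funext i
  simp [map_sub]

lemma PP_SmK {t n m : ℕ} (hm : 2 * m ≤ n) (c : Fin (m + 1) → Ix K → ℤ)
    (h : ∀ i j, |c i j| ≤ (t : ℤ) ^ (n - 2 * (i : ℕ))) : SmK t m (kap K * t ^ n) (PP c) := by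
  refine ⟨PP_natDegree c, fun i => ?_⟩
  have hk := one_le_kap (K := K)
  rcases lt_or_ge i (m + 1) with hi | hi
  · rw [PP_coeff c i hi]
    have h1 := house_ee (c ⟨i, hi⟩) ((t : ℝ) ^ (n - 2 * i)) (by positivity) (by
      intro j
      have := h ⟨i, hi⟩ j
      simp only at this
      exact_mod_cast this)
    have h2 : (t : ℝ) ^ n = (t : ℝ) ^ (n - 2 * i) * (t : ℝ) ^ (2 * i) := by
      rw [← pow_add]
      congr 1
      omega
    rw [h2, ← mul_assoc]
    exact mul_le_mul_of_nonneg_right h1 (by positivity)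
  · rw [PP_coeff_ge c i hi]
    have h0 : house ((0 : 𝓞 K) : K) = 0 := by
      have := house_intCast (K := K) 0
      simpa using this
    rw [h0, zero_mul]
    positivity

omit [NumberField K] in
lemma card_roots_leK (p : ℕ) (hp : p.Prime) (ψ : 𝓞 K →+* ZMod (p ^ 2)) (A : (𝓞 K)[X]) (m : ℕ)
    (hA : A.natDegree ≤ m) (h : ∃ i, psi1 ψ (A.coeff i) ≠ 0) :
    ((Finset.range p).filter fun r : ℕ => ev1 ψ (r : ℤ) A = 0).card ≤ m := by
  have : Fact p.Prime := ⟨hp⟩
  set B : (ZMod p)[X] := A.map (psi1 ψ) with hB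
  have hB0 : B ≠ 0 := by
    obtain ⟨i, hi⟩ := h
    intro h0
    apply hi
    have := congrArg (fun P => P.coeff i) h0
    simpa [hB, coeff_map] using this
  calc ((Finset.range p).filter fun r : ℕ => ev1 ψ (r : ℤ) A = 0).card
      ≤ B.roots.toFinset.card := by
        apply Finset.card_le_card_of_injOn (fun r : ℕ => (r : ZMod p))
        · intro r hr
          simp only [Finset.coe_filter, Finset.mem_range, Set.mem_ofPred_eq] at hr
          simp only [Finset.mem_coe, Multiset.mem_toFinset]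
          rw [mem_roots hB0, IsRoot.def, hB, eval_map]
          have h1 := hr.2
          rw [ev1_eq] at h1
          simpa using h1
        · intro a ha b hb hab
          simp only [Finset.coe_filter, Finset.mem_range, Set.mem_ofPred_eq] at ha hb
          simp only at hab
          have h1 := (ZMod.natCast_eq_natCast_iff' a b p).1 hab
          rwa [Nat.mod_eq_of_lt ha.1, Nat.mod_eq_of_lt hb.1] at h1
    _ ≤ B.roots.card := Multiset.toFinset_card_le _
    _ ≤ B.natDegree := card_roots' B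
    _ ≤ A.natDegree := natDegree_map_le
    _ ≤ m := hA

/-- no small polynomial vanishes at `r` modulo `p` -/
def GoodK {p : ℕ} (ψ : 𝓞 K →+* ZMod (p ^ 2)) (t n m : ℕ) (r : ℤ) : Prop :=
  ∀ c : Fin (m + 1) → Ix K → ℤ, (∀ i j, |c i j| < (t : ℤ) ^ (n - 2 * (i : ℕ))) →
    ev1 ψ r (PP c) = 0 → c = 0

variable (K) in
lemma prod_expK (t n m : ℕ) (h : 2 * m ≤ n) :
    ∏ i : Fin (m + 1), ∏ _j : Ix K, t ^ (n - 2 * (i : ℕ)) =
      t ^ (finrank ℚ K * ((m + 1) * (n - m))) := by
  have h1 := Pool.Agent.L5helper9.Nf.prod_exp t n m h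
  simp only [Finset.prod_const, Finset.card_univ, card_Ix K]
  rw [Finset.prod_pow, h1, ← pow_mul]
  congr 1
  ring

open Classical in
/-- most residues are good -/
theorem card_not_goodK (t n m p : ℕ) (hp : p.Prime) (hm : 2 * m ≤ n) (ht : 1 ≤ t)
    (hk : (kap K * t ^ n) ^ finrank ℚ K < p) (ψ : 𝓞 K →+* ZMod (p ^ 2)) :
    ((Finset.range p).filter fun r : ℕ => ¬ GoodK ψ t n m (r : ℤ)).card ≤
      m * (2 ^ ((m + 1) * finrank ℚ K) * t ^ (finrank ℚ K * ((m + 1) * (n - m)))) := by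
  classical
  set P : Finset (Fin (m + 1) → Ix K → ℤ) := Fintype.piFinset fun i : Fin (m + 1) =>
    Fintype.piFinset fun _j : Ix K =>
      Finset.Ioo (-(t : ℤ) ^ (n - 2 * (i : ℕ))) ((t : ℤ) ^ (n - 2 * (i : ℕ))) with hP
  have hPcard : P.card ≤
      2 ^ ((m + 1) * finrank ℚ K) * t ^ (finrank ℚ K * ((m + 1) * (n - m))) := by
    rw [hP, Fintype.card_piFinset, ← prod_expK K t n m hm]
    have h1 : (2 : ℕ) ^ ((m + 1) * finrank ℚ K) = ∏ _i : Fin (m + 1), ∏ _j : Ix K, 2 := by
      simp only [Finset.prod_const, Finset.card_univ, card_Ix K, Fintype.card_fin]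
      rw [← pow_mul]
      congr 1
      ring
    rw [h1, ← Finset.prod_mul_distrib]
    apply Finset.prod_le_prod'
    intro i _
    rw [Fintype.card_piFinset, ← Finset.prod_mul_distrib]
    apply Finset.prod_le_prod'
    intro j _
    rw [Int.card_Ioo]
    have h2 : (0 : ℤ) ≤ (t : ℤ) ^ (n - 2 * (i : ℕ)) := by positivity
    have h3 : ((2 * t ^ (n - 2 * (i : ℕ)) : ℕ) : ℤ) = 2 * (t : ℤ) ^ (n - 2 * (i : ℕ)) := by
      push_cast; ring
    omega
  have hsub : ((Finset.range p).filter fun r : ℕ => ¬ GoodK ψ t n m (r : ℤ)) ⊆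
      P.biUnion fun c => if c = 0 then ∅ else
        (Finset.range p).filter fun r : ℕ => ev1 ψ (r : ℤ) (PP c) = 0 := by
    intro r hr
    rw [Finset.mem_filter] at hr
    obtain ⟨hr1, hr2⟩ := hr
    unfold GoodK at hr2
    push Not at hr2
    obtain ⟨c, hc1, hc2, hc3⟩ := hr2
    rw [Finset.mem_biUnion]
    refine ⟨c, ?_, ?_⟩
    · rw [hP, Fintype.mem_piFinset]
      intro i
      rw [Fintype.mem_piFinset]
      intro j
      have := hc1 i j
      rw [abs_lt] at this
      rw [Finset.mem_Ioo]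
      exact this
    · rw [if_neg hc3, Finset.mem_filter]
      exact ⟨hr1, hc2⟩
  calc _ ≤ _ := Finset.card_le_card hsub
    _ ≤ ∑ c ∈ P, (if c = 0 then (∅ : Finset ℕ) else
        (Finset.range p).filter fun r : ℕ => ev1 ψ (r : ℤ) (PP c) = 0).card :=
        Finset.card_biUnion_le
    _ ≤ ∑ _c ∈ P, m := by
        apply Finset.sum_le_sum
        intro c hc
        split_ifs with h0
        · simp
        · apply card_roots_leK p hp ψ _ m (PP_natDegree c)
          obtain ⟨i, hi⟩ : ∃ i, c i ≠ 0 := by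
            by_contra hcon
            push Not at hcon
            exact h0 (funext hcon)
          refine ⟨i, ?_⟩
          rw [PP_coeff c i i.2]
          apply psi_ne_zero
          · intro h1
            exact hi (by simpa using h1)
          · refine lt_of_le_of_lt ?_ hk
            apply pow_le_pow_left₀ (house_nonneg _)
            apply house_ee _ _ (by positivity)
            intro j
            rw [hP, Fintype.mem_piFinset] at hc
            have h2 := hc i
            rw [Fintype.mem_piFinset] at h2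
            have h3 := h2 j
            rw [Finset.mem_Ioo] at h3
            have h4 : (t : ℤ) ^ (n - 2 * (i : ℕ)) ≤ (t : ℤ) ^ n :=
              pow_le_pow_right₀ (by exact_mod_cast ht) (by omega)
            have h5 : |c i j| ≤ (t : ℤ) ^ n := by
              rw [abs_le]
              constructor
              · linarith [h3.1]
              · linarith [h3.2]
            exact_mod_cast h5
    _ = m * P.card := by rw [Finset.sum_const, smul_eq_mul, mul_comm]
    _ ≤ _ := Nat.mul_le_mul_left _ hPcard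

/-- residues represented by small polynomials -/
noncomputable def RsK {p : ℕ} [NeZero p] (ψ : 𝓞 K →+* ZMod (p ^ 2)) (t n m : ℕ) (r : ℤ) (j : ℕ) :
    Finset (ZMod p) := by
  classical
  exact Finset.univ.filter fun ρ => ∃ A : (𝓞 K)[X], SmK t m (j * (kap K * t ^ n)) A ∧
    ev1 ψ r A = ρ

lemma mem_RsK {t n m p : ℕ} [NeZero p] {ψ : 𝓞 K →+* ZMod (p ^ 2)} {r : ℤ} {j : ℕ} {ρ : ZMod p} :
    ρ ∈ RsK ψ t n m r j ↔ ∃ A : (𝓞 K)[X], SmK t m (j * (kap K * t ^ n)) A ∧ ev1 ψ r A = ρ := by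
  unfold RsK
  simp

lemma card_RsK_one (t n m p : ℕ) [NeZero p] (ψ : 𝓞 K →+* ZMod (p ^ 2)) (r : ℤ) (hm : 2 * m ≤ n)
    (hr : GoodK ψ t n m r) :
    t ^ (finrank ℚ K * ((m + 1) * (n - m))) ≤ (RsK ψ t n m r 1).card := by
  classical
  set P : Finset (Fin (m + 1) → Ix K → ℤ) := Fintype.piFinset fun i : Fin (m + 1) =>
    Fintype.piFinset fun _j : Ix K => Finset.Ico 0 ((t : ℤ) ^ (n - 2 * (i : ℕ))) with hP
  have hPcard : P.card = t ^ (finrank ℚ K * ((m + 1) * (n - m))) := by
    rw [hP, Fintype.card_piFinset, ← prod_expK K t n m hm]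
    apply Finset.prod_congr rfl
    intro i _
    rw [Fintype.card_piFinset]
    apply Finset.prod_congr rfl
    intro j _
    rw [Int.card_Ico, sub_zero]
    have : ((t : ℤ) ^ (n - 2 * (i : ℕ))) = ((t ^ (n - 2 * (i : ℕ)) : ℕ) : ℤ) := by push_cast; ring
    rw [this, Int.toNat_natCast]
  rw [← hPcard]
  have hbox : ∀ a ∈ P, ∀ i j, 0 ≤ a i j ∧ a i j < (t : ℤ) ^ (n - 2 * (i : ℕ)) := by
    intro a ha i j
    rw [hP, Fintype.mem_piFinset] at ha
    have h1 := ha i
    rw [Fintype.mem_piFinset] at h1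
    have h2 := h1 j
    rw [Finset.mem_Ico] at h2
    exact h2
  apply Finset.card_le_card_of_injOn (fun c => ev1 ψ r (PP c))
  · intro a ha
    rw [Finset.mem_coe] at ha
    rw [Finset.mem_coe, mem_RsK]
    refine ⟨PP a, ?_, rfl⟩
    have h1 := PP_SmK (K := K) (t := t) (n := n) (m := m) hm a (by
      intro i j
      have h2 := hbox a ha i j
      rw [abs_of_nonneg h2.1]
      exact h2.2.le)
    simpa using h1
  · intro a ha b hb hab
    rw [Finset.mem_coe] at ha hb
    simp only at hab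
    have h1 : ev1 ψ r (PP (a - b)) = 0 := by
      rw [PP_sub, ev1_eq, eval₂_sub, ← ev1_eq, ← ev1_eq, hab, sub_self]
    have h2 := hr _ (by
      intro i j
      have h3 := hbox a ha i j
      have h4 := hbox b hb i j
      simp only [Pi.sub_apply]
      rw [abs_lt]
      constructor
      · linarith [h3.1, h4.2]
      · linarith [h3.2, h4.1]) h1
    exact sub_eq_zero.1 h2

lemma RsK_add (t n m p : ℕ) [NeZero p] (ψ : 𝓞 K →+* ZMod (p ^ 2)) (r : ℤ) (j k : ℕ) :
    RsK ψ t n m r j + RsK ψ t n m r k ⊆ RsK ψ t n m r (j + k) := by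
  classical
  intro ρ hρ
  rw [Finset.mem_add] at hρ
  obtain ⟨x, hx, y, hy, rfl⟩ := hρ
  rw [mem_RsK] at hx hy ⊢
  obtain ⟨A, hA, rfl⟩ := hx
  obtain ⟨B, hB, rfl⟩ := hy
  refine ⟨A + B, ?_, by rw [ev1_eq, eval₂_add, ← ev1_eq, ← ev1_eq]⟩
  have := SmK_add hA hB
  have e : ((j + k : ℕ) : ℝ) * (kap K * (t : ℝ) ^ n) =
      (j : ℝ) * (kap K * (t : ℝ) ^ n) + (k : ℝ) * (kap K * (t : ℝ) ^ n) := by
    push_cast
    ring
  rw [e]
  exact this

/-- **Small representatives modulo a prime of degree one, for good residues.** -/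
theorem reps1K (t n m p : ℕ) (hp : p.Prime) (ψ : 𝓞 K →+* ZMod (p ^ 2)) (r : ℤ)
    (hm : 2 * m + 1 ≤ n) (ht : 2 ≤ t) (hr : GoodK ψ t n m r) (C : ℕ)
    (hpC : p ≤ C * t ^ (finrank ℚ K * ((m + 1) * (n - m)))) (ρ : ZMod p) :
    ∃ A : (𝓞 K)[X], SmK t m (((2 * C : ℕ) : ℝ) * (kap K * t ^ n)) A ∧ ev1 ψ r A = ρ := by
  classical
  have : NeZero p := ⟨hp.ne_zero⟩
  have : Fact p.Prime := ⟨hp⟩
  set s := t ^ (finrank ℚ K * ((m + 1) * (n - m))) with hs
  have hs2 : 2 ≤ s := by
    have h1 : 1 ≤ finrank ℚ K * ((m + 1) * (n - m)) :=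
      Nat.mul_pos finrank_pos (Nat.mul_pos (by omega) (by omega))
    calc 2 ≤ t := ht
      _ = t ^ 1 := (pow_one t).symm
      _ ≤ s := Nat.pow_le_pow_right (by omega) h1
  have h1 := card_RsK_one t n m p ψ r (by omega) hr
  rw [← hs] at h1
  have h2 : ∀ j : ℕ, min p (j * (s - 1) + 1) ≤ (RsK ψ t n m r j).card := by
    intro j
    induction j with
    | zero =>
      have h3 : (0 : ZMod p) ∈ RsK ψ t n m r 0 := by
        rw [mem_RsK]
        refine ⟨0, ⟨by simp, fun i => ?_⟩, by rw [ev1_eq]; simp⟩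
        have h0 : house ((0 : 𝓞 K) : K) = 0 := by
          have := house_intCast (K := K) 0
          simpa using this
        rw [coeff_zero, h0]
        simp
      have h4 : 1 ≤ (RsK ψ t n m r 0).card := Finset.card_pos.2 ⟨0, h3⟩
      omega
    | succ j ih =>
      have hne1 : (RsK ψ t n m r 1).Nonempty := Finset.card_pos.1 (by omega)
      have hnej : (RsK ψ t n m r j).Nonempty := by
        rw [← Finset.card_pos]
        have := hp.pos
        omega
      have h3 := ZMod.cauchy_davenport hp hnej hne1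
      have h4 := Finset.card_le_card (RsK_add t n m p ψ r j 1)
      have h5 : (j + 1) * (s - 1) = j * (s - 1) + (s - 1) := by ring
      rw [h5]
      omega
  have h3 : (RsK ψ t n m r (2 * C)).card = Fintype.card (ZMod p) := by
    rw [ZMod.card p]
    apply le_antisymm
    · calc _ ≤ Fintype.card (ZMod p) := Finset.card_le_univ _
        _ = p := ZMod.card p
    · have h4 := h2 (2 * C)
      have h5 : p ≤ 2 * C * (s - 1) + 1 := by
        have h6 : s ≤ 2 * (s - 1) := by omega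
        have h7 : C * s ≤ C * (2 * (s - 1)) := Nat.mul_le_mul_left _ h6
        have h8 : C * (2 * (s - 1)) = 2 * C * (s - 1) := by ring
        omega
      omega
  have h4 : RsK ψ t n m r (2 * C) = Finset.univ := Finset.eq_univ_of_card _ h3
  have h5 : ρ ∈ RsK ψ t n m r (2 * C) := by
    rw [h4]
    exact Finset.mem_univ _
  rw [mem_RsK] at h5
  exact h5

end aux

/-- JOB 7 -/
theorem goodK (K : Type) [Field K] [NumberField K] (m : ℕ) (hm1 : 1 ≤ m) :
    ∃ κ : ℝ, ∃ C2 : ℕ, 1 ≤ κ ∧ 1 ≤ C2 ∧ ∀ t n p : ℕ, p.Prime → 2 * m + 1 ≤ n → 2 ≤ t →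
      C2 * t ^ (finrank ℚ K * n) < p → ∀ ψ : 𝓞 K →+* ZMod (p ^ 2), ∃ Gd : Finset ℕ,
        Gd ⊆ Finset.range p ∧ p ≤ Gd.card + C2 * t ^ (finrank ℚ K * ((m + 1) * (n - m))) ∧
        ∀ r ∈ Gd, ∀ C : ℕ, p ≤ C * t ^ (finrank ℚ K * ((m + 1) * (n - m))) →
          ∀ ρ : ZMod p, ∃ A : (𝓞 K)[X], SmK t m (κ * C * t ^ n) A ∧ ev1 ψ (r : ℤ) A = ρ := by
  classical
  have hk1 := one_le_kap (K := K)
  refine ⟨2 * kap K, m * 2 ^ ((m + 1) * finrank ℚ K) + ⌈kap K ^ finrank ℚ K⌉₊, by linarith, ?_, ?_⟩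
  · have h1 : 1 ≤ m * 2 ^ ((m + 1) * finrank ℚ K) := Nat.mul_pos hm1 (by positivity)
    omega
  · intro t n p hp hn ht hC2 ψ
    have hk : (kap K * (t : ℝ) ^ n) ^ finrank ℚ K < p := by
      have h1 : kap K ^ finrank ℚ K ≤
          ((m * 2 ^ ((m + 1) * finrank ℚ K) + ⌈kap K ^ finrank ℚ K⌉₊ : ℕ) : ℝ) := by
        refine (Nat.le_ceil _).trans ?_
        exact_mod_cast Nat.le_add_left _ _
      have h2 : (((m * 2 ^ ((m + 1) * finrank ℚ K) + ⌈kap K ^ finrank ℚ K⌉₊) *
          t ^ (finrank ℚ K * n) : ℕ) : ℝ) < p := by exact_mod_cast hC2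
      rw [mul_pow, ← pow_mul, mul_comm n]
      refine lt_of_le_of_lt ?_ h2
      push_cast at h1 ⊢
      exact mul_le_mul_of_nonneg_right h1 (by positivity)
    refine ⟨(Finset.range p).filter fun r : ℕ => GoodK ψ t n m (r : ℤ), Finset.filter_subset _ _,
      ?_, ?_⟩
    · have h1 := card_not_goodK t n m p hp (by omega) (by omega) hk ψ
      have h2 := Finset.card_filter_add_card_filter_not (s := Finset.range p)
        (fun r : ℕ => GoodK ψ t n m (r : ℤ))
      rw [Finset.card_range] at h2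
      have h3 : m * (2 ^ ((m + 1) * finrank ℚ K) * t ^ (finrank ℚ K * ((m + 1) * (n - m)))) ≤
          (m * 2 ^ ((m + 1) * finrank ℚ K) + ⌈kap K ^ finrank ℚ K⌉₊) *
            t ^ (finrank ℚ K * ((m + 1) * (n - m))) := by
        rw [← mul_assoc]
        exact Nat.mul_le_mul_right _ (Nat.le_add_right _ _)
      omega
    · intro r hr C hC ρ
      rw [Finset.mem_filter] at hr
      obtain ⟨A, hA1, hA2⟩ := reps1K t n m p hp ψ (r : ℤ) hn ht hr.2 C hC ρ
      refine ⟨A, ?_, hA2⟩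
      have e : (2 * kap K * (C : ℝ) * (t : ℝ) ^ n) = ((2 * C : ℕ) : ℝ) * (kap K * (t : ℝ) ^ n) := by
        push_cast
        ring
      rw [e]
      exact hA1

end Pool.Agent.L5helper37.NfLow
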